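import Mathlib
import Pool.Agent.H1.TD.Defs

namespace Pool.Agent.H1.TD
open Finset

theorem core {α β : Type*} [Fintype α] [Fintype β] [DecidableEq α] [DecidableEq β]
    (M : α → Finset β) (r c : ℕ) (hcr : c + 1 ≤ r)
    (H1 : ∀ R : Finset α, R.card ≤ r → ∃ z, ∀ v ∈ R, z ∈ M v)
    (H2 : ∀ z, ∃ v, z ∉ M v)
    (H3 : ∀ z, c ≤ (univ.filter (fun v => z ∈ M v)).card) :
    c * Fintype.card β + r * Fintype.card α ≤ ∑ v, (M v).card + c * (r + 1) := by
  classical
  -- minimal family with empty intersection
  have hex : ∃ F : Finset α, (∀ z, ∃ v ∈ F, z ∉ M v) ∧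
      ∀ F' : Finset α, F'.card < F.card → ¬ (∀ z, ∃ v ∈ F', z ∉ M v) := by
    have : ∃ n, ∃ F : Finset α, F.card = n ∧ (∀ z, ∃ v ∈ F, z ∉ M v) :=
      ⟨_, univ, rfl, fun z => by obtain ⟨v, hv⟩ := H2 z; exact ⟨v, mem_univ _, hv⟩⟩
    obtain ⟨F, hF, hP⟩ := Nat.find_spec this
    refine ⟨F, hP, fun F' hF' hc => ?_⟩
    rw [hF] at hF'
    exact Nat.find_min this hF' ⟨F', rfl, hc⟩
  obtain ⟨F, hF, hmin⟩ := hex
  set s := F.card with hs
  have hsr : r + 1 ≤ s := by
    by_contra h
    obtain ⟨z, hz⟩ := H1 F (by omega)
    obtain ⟨v, hv, hv'⟩ := hF z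
    exact hv' (hz v hv)
  have he : ∀ v : α, ∃ z, v ∈ F → ((∀ u ∈ F, u ≠ v → z ∈ M u) ∧ z ∉ M v) := by
    intro v
    by_cases hv : v ∈ F
    · have := hmin (F.erase v) (Finset.card_erase_lt_of_mem hv)
      push Not at this
      obtain ⟨z, hz⟩ := this
      refine ⟨z, fun _ => ⟨fun u hu huv => hz u (mem_erase.2 ⟨huv, hu⟩), ?_⟩⟩
      intro hzv
      obtain ⟨u, hu, hu'⟩ := hF z
      by_cases huv : u = v
      · exact hu' (huv ▸ hzv)
      · exact hu' (hz u (mem_erase.2 ⟨huv, hu⟩))
    · obtain ⟨z, _⟩ := H1 ∅ (by simp)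
      exact ⟨z, fun h => absurd h hv⟩
  choose e he using he
  have einj : Set.InjOn e (F : Set α) := by
    intro u hu v hv huv
    by_contra hne
    have h1 := (he u hu).2
    rw [huv] at h1
    exact h1 ((he v hv).1 u hu hne)
  set E := F.image e with hE
  have hEcard : E.card = s := Finset.card_image_of_injOn einj
  let L : β → ℕ := fun z => (F.filter (fun v => z ∈ M v)).card
  let O : β → ℕ := fun z => ((univ \ F).filter (fun v => z ∈ M v)).card
  have hLO : ∀ z, c ≤ L z + O z := by
    intro z
    refine (H3 z).trans ?_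
    have : univ.filter (fun v => z ∈ M v) = F.filter (fun v => z ∈ M v) ∪
        (univ \ F).filter (fun v => z ∈ M v) := by
      ext v; simp; tauto
    rw [this]
    exact Finset.card_union_le _ _
  have hLE : ∀ z ∈ E, s - 1 ≤ L z := by
    intro z hz
    obtain ⟨v, hv, rfl⟩ := Finset.mem_image.1 hz
    have hsub : F.erase v ⊆ F.filter (fun u => e v ∈ M u) := by
      intro u hu
      rw [mem_erase] at hu
      exact mem_filter.2 ⟨hu.2, (he v hv).1 u hu.2 hu.1⟩
    have := Finset.card_le_card hsub
    rw [Finset.card_erase_of_mem hv] at this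
    exact this
  let S : Finset β := univ.filter (fun z => c ≤ L z)
  have hMS : ∀ v, v ∉ F → r ≤ (M v ∩ S).card := by
    intro v hv
    by_contra hlt
    push Not at hlt
    have hf : ∀ z, ∃ u ∈ F, z ∉ M u := hF
    choose f hfF hfM using hf
    have hsub : (M v ∩ S).image f ⊆ F := by
      intro u hu
      obtain ⟨z, _, rfl⟩ := Finset.mem_image.1 hu
      exact hfF z
    have hle : ((M v ∩ S).image f).card ≤ r - 1 := by
      refine Finset.card_image_le.trans ?_
      omega
    obtain ⟨T, hT1, hT2, hT3⟩ := Finset.exists_subsuperset_card_eq hsub hle (by omega)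
    obtain ⟨z, hz⟩ := H1 (insert v T) (by
      refine (Finset.card_insert_le _ _).trans ?_
      omega)
    have hzS : z ∈ S := by
      refine mem_filter.2 ⟨mem_univ _, ?_⟩
      have : T ⊆ F.filter (fun u => z ∈ M u) := fun u hu =>
        mem_filter.2 ⟨hT2 hu, hz u (mem_insert_of_mem hu)⟩
      have := Finset.card_le_card this
      change c ≤ (F.filter (fun u => z ∈ M u)).card
      omega
    have hzM : z ∈ M v ∩ S := mem_inter.2 ⟨hz v (mem_insert_self _ _), hzS⟩
    exact hfM z (hz (f z) (mem_insert_of_mem (hT1 (mem_image_of_mem f hzM))))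
  -- counting
  have dc : ∀ (R : Finset α) (Q : Finset β), ∑ v ∈ R, (M v ∩ Q).card =
      ∑ z ∈ Q, (R.filter (fun v => z ∈ M v)).card := by
    intro R Q
    have h1 : ∀ v, (M v ∩ Q).card = ∑ z ∈ Q, if z ∈ M v then 1 else 0 := by
      intro v
      rw [Finset.sum_ite_mem, Finset.inter_comm]; simp
    have h2 : ∀ z, (R.filter (fun v => z ∈ M v)).card = ∑ v ∈ R, if z ∈ M v then 1 else 0 := by
      intro z
      rw [Finset.card_filter]
    simp_rw [h1, h2]
    exact Finset.sum_comm
  have hA : ∑ v ∈ F, (M v).card = ∑ z, L z := by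
    have := dc F univ
    simpa using this
  have hB : r * (Fintype.card α - s) + ∑ z ∈ univ \ S, O z ≤ ∑ v ∈ univ \ F, (M v).card := by
    have h1 : ∀ v ∈ univ \ F, r + (M v ∩ (univ \ S)).card ≤ (M v).card := by
      intro v hv
      have hv' : v ∉ F := (mem_sdiff.1 hv).2
      have := hMS v hv'
      have h2 : (M v ∩ S).card + (M v ∩ (univ \ S)).card = (M v).card := by
        have : M v ∩ (univ \ S) = M v \ S := by ext z; simp
        rw [this]
        exact Finset.card_inter_add_card_sdiff (M v) S
      omega
    have h2 := Finset.sum_le_sum h1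
    rw [Finset.sum_add_distrib, dc] at h2
    have h3 : (univ \ F).card = Fintype.card α - s := by
      rw [Finset.card_sdiff_of_subset (subset_univ _)]; rfl
    rw [Finset.sum_const, h3, smul_eq_mul, mul_comm] at h2
    exact h2
  have hC : ∑ v, (M v).card = ∑ v ∈ F, (M v).card + ∑ v ∈ univ \ F, (M v).card := by
    rw [add_comm, Finset.sum_sdiff (subset_univ F)]
  have hD : (s - 1) * s + c * (Fintype.card β - s) ≤ ∑ z, L z + ∑ z ∈ univ \ S, O z := by
    have h0 : ∑ z ∈ univ \ S, O z = ∑ z, if z ∈ S then 0 else O z := by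
      rw [Finset.sum_ite, Finset.sum_const_zero, zero_add]
      refine Finset.sum_congr ?_ fun _ _ => rfl
      ext z; simp
    rw [h0, ← Finset.sum_add_distrib, ← Finset.sum_sdiff (subset_univ E), add_comm]
    refine add_le_add ?_ ?_
    · have : (univ \ E).card = Fintype.card β - s := by
        rw [Finset.card_sdiff_of_subset (subset_univ _), hEcard]; rfl
      rw [← this, mul_comm, ← smul_eq_mul, ← Finset.sum_const]
      refine Finset.sum_le_sum fun z _ => ?_
      by_cases hz : z ∈ S
      · have := (mem_filter.1 hz).2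
        simp [hz]; exact this
      · simp only [hz, if_false]; exact hLO z
    · rw [← hEcard, mul_comm, ← smul_eq_mul, ← Finset.sum_const, hEcard]
      refine Finset.sum_le_sum fun z hz => ?_
      exact (hLE z hz).trans (Nat.le_add_right _ _)
  have hsα : s ≤ Fintype.card α := Finset.card_le_univ _
  have hsβ : s ≤ Fintype.card β := by rw [← hEcard]; exact Finset.card_le_univ _
  obtain ⟨x, hx⟩ := Nat.exists_eq_add_of_le hsα
  obtain ⟨y, hy⟩ := Nat.exists_eq_add_of_le hsβ
  obtain ⟨t, ht⟩ := Nat.exists_eq_add_of_le hsr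
  have e1 : Fintype.card α - s = x := by omega
  have e2 : Fintype.card β - s = y := by omega
  have e3 : s - 1 = r + t := by omega
  rw [e1] at hB
  rw [e2, e3] at hD
  rw [hC, hA, hx, hy]
  obtain ⟨d, hd⟩ := Nat.exists_eq_add_of_le hcr
  have key : c * (s + y) + r * (s + x) ≤ ((r + t) * s + c * y + r * x) + c * (r + 1) := by
    rw [ht, hd]; nlinarith [Nat.zero_le (t * d), Nat.zero_le t, Nat.zero_le (t*t), Nat.zero_le (t*c)]
  calc c * (s + y) + r * (s + x) ≤ ((r + t) * s + c * y + r * x) + c * (r + 1) := key
    _ ≤ _ := by omega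


theorem oneSided {V : Type*} [Fintype V] [DecidableEq V] (G : SimpleGraph V)
    [DecidableRel G.Adj] (C : V → Bool) (hC : ∀ u v, G.Adj u v → C u ≠ C v)
    (hiso : ∀ v, ∃ w, G.Adj v w) (D : Finset V) (hD : IsTotalDominating G D)
    (hmin : ∀ S, IsTotalDominating G S → D.card ≤ S.card) (a b : ℕ)
    (ha : (D.filter (fun v => C v = true)).card = a)
    (hb : (D.filter (fun v => C v = false)).card = b) (hab : b < a) (hb1 : 1 ≤ b) :
    (b - 1) * Fintype.card {v // C v = false} + (a - 1) * Fintype.card {v // C v = true}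
      + G.edgeFinset.card
      ≤ Fintype.card {v // C v = true} * Fintype.card {v // C v = false} + (b - 1) * a := by
  classical
  have hDab : D.card = a + b := by
    rw [← ha, ← hb]
    have := Finset.card_filter_add_card_filter_not (s := D) (fun v => C v = true)
    have h2 : D.filter (fun v => ¬ C v = true) = D.filter (fun v => C v = false) := by
      ext v; simp
    rw [h2] at this
    exact this.symm
  let M : {v // C v = true} → Finset {v // C v = false} :=
    fun v => univ.filter (fun w => ¬ G.Adj v.1 w.1)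
  have hnb : ∀ v w, G.Adj v w → C v = true → C w = false := by
    intro v w h hv
    have := hC v w h
    rw [hv] at this
    cases h' : C w
    · rfl
    · exact absurd h'.symm this
  have hnb' : ∀ v w, G.Adj v w → C v = false → C w = true := by
    intro v w h hv
    have := hC v w h
    rw [hv] at this
    cases h' : C w
    · exact absurd h'.symm this
    · rfl
  have H1 : ∀ R : Finset {v // C v = true}, R.card ≤ a - 1 → ∃ z, ∀ v ∈ R, z ∈ M v := by
    intro R hR
    by_contra hcon
    push Not at hcon
    -- R ∪ D_B is total dominating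
    let S : Finset V := R.image (fun v => v.1) ∪ D.filter (fun v => C v = false)
    have hS : IsTotalDominating G S := by
      intro v
      cases hv : C v
      · obtain ⟨u, hu, huv⟩ := hcon ⟨v, hv⟩
        have : G.Adj u.1 v := by
          by_contra hna
          exact huv (mem_filter.2 ⟨mem_univ _, hna⟩)
        exact ⟨u.1, mem_union_left _ (mem_image_of_mem _ hu), this.symm⟩
      · obtain ⟨w, hw, hvw⟩ := hD v
        exact ⟨w, mem_union_right _ (mem_filter.2 ⟨hw, hnb v w hvw hv⟩), hvw⟩
    have h1 := hmin S hS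
    have h2 : S.card ≤ R.card + b := by
      refine (Finset.card_union_le _ _).trans ?_
      rw [hb]
      exact Nat.add_le_add_right Finset.card_image_le _
    omega
  have H2 : ∀ z, ∃ v, z ∉ M v := by
    intro z
    obtain ⟨w, hw⟩ := hiso z.1
    refine ⟨⟨w, hnb' z.1 w hw z.2⟩, ?_⟩
    intro h
    exact (mem_filter.1 h).2 hw.symm
  have H3 : ∀ z, b - 1 ≤ (univ.filter (fun v => z ∈ M v)).card := by
    intro z
    by_contra hcon
    push Not at hcon
    choose g hg using hiso
    let Q := univ.filter (fun v => z ∈ M v)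
    let S : Finset V := D.filter (fun v => C v = true) ∪
      insert z.1 (Q.image (fun v => g v.1))
    have hS : IsTotalDominating G S := by
      intro v
      cases hv : C v
      · obtain ⟨w, hw, hvw⟩ := hD v
        exact ⟨w, mem_union_left _ (mem_filter.2 ⟨hw, hnb' v w hvw hv⟩), hvw⟩
      · by_cases hz : G.Adj v z.1
        · exact ⟨z.1, mem_union_right _ (mem_insert_self _ _), hz⟩
        · refine ⟨g v, mem_union_right _ (mem_insert_of_mem (mem_image.2 ⟨⟨v, hv⟩, ?_, rfl⟩)),
            hg v⟩
          exact mem_filter.2 ⟨mem_univ _, mem_filter.2 ⟨mem_univ _, hz⟩⟩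
    have h1 := hmin S hS
    have h2 : S.card ≤ a + (1 + Q.card) := by
      refine (Finset.card_union_le _ _).trans ?_
      rw [ha]
      refine Nat.add_le_add_left ?_ _
      refine (Finset.card_insert_le _ _).trans ?_
      have := Finset.card_image_le (s := Q) (f := fun v => g v.1)
      omega
    have h3 : Q.card < b - 1 := hcon
    omega
  have hcore := core M (a - 1) (b - 1) (by omega) H1 H2 H3
  have hdeg : ∀ v : {v // C v = true}, (M v).card + G.degree v.1
      = Fintype.card {v // C v = false} := by
    intro v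
    have h1 : G.degree v.1 = (univ.filter
        (fun w : {v // C v = false} => G.Adj v.1 w.1)).card := by
      rw [← SimpleGraph.card_neighborFinset_eq_degree]
      symm
      refine Finset.card_bij (fun w _ => w.1) ?_ ?_ ?_
      · intro w hw
        rw [SimpleGraph.mem_neighborFinset]
        exact (mem_filter.1 hw).2
      · intro w _ w' _ h
        exact Subtype.ext h
      · intro w hw
        rw [SimpleGraph.mem_neighborFinset] at hw
        exact ⟨⟨w, hnb v.1 w hw v.2⟩, mem_filter.2 ⟨mem_univ _, hw⟩, rfl⟩
    rw [h1, add_comm]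
    exact Finset.card_filter_add_card_filter_not (s := univ)
      (fun w : {v // C v = false} => G.Adj v.1 w.1)
  have hm : ∑ v : {v // C v = true}, G.degree v.1 = G.edgeFinset.card := by
    have hbip : G.IsBipartiteWith (↑(univ.filter (fun v => C v = true)) : Set V)
        (↑(univ.filter (fun v => C v = false)) : Set V) := by
      constructor
      · rw [Set.disjoint_left]
        intro v hv hv'
        simp at hv hv'
        rw [hv] at hv'
        exact absurd hv' (by decide)
      · intro v w h
        cases hv : C v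
        · right
          simp [hv, hnb' v w h hv]
        · left
          simp [hv, hnb v w h hv]
    rw [← SimpleGraph.isBipartiteWith_sum_degrees_eq_card_edges hbip]
    rw [← Finset.sum_subtype (p := fun v => C v = true) (f := fun v => G.degree v)]
    intro v; simp
  have hsum : ∑ v : {v // C v = true}, (M v).card + G.edgeFinset.card
      = Fintype.card {v // C v = true} * Fintype.card {v // C v = false} := by
    rw [← hm, ← Finset.sum_add_distrib, Finset.sum_congr rfl (fun v _ => hdeg v)]
    simp
  have : a - 1 + 1 = a := by omega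
  rw [this] at hcore
  omega

theorem arith (x y a b m : ℕ) (hba : b < a) (hb1 : 1 ≤ b)
    (key : (b - 1) * y + (a - 1) * x + m ≤ x * y + (b - 1) * a) :
    4 * (m : ℤ) ≤ ((((x + y : ℕ) : ℤ) - ((a + b : ℕ) : ℤ)) *
      (((x + y : ℕ) : ℤ) - ((a + b : ℕ) : ℤ) + 4) + 2 * ((a + b : ℕ) : ℤ) - 2) := by
  obtain ⟨b', rfl⟩ := Nat.exists_eq_add_of_le' hb1
  obtain ⟨k, rfl⟩ := Nat.exists_eq_add_of_lt hba
  have e1 : b' + 1 - 1 = b' := by omega
  have e2 : b' + 1 + k + 1 - 1 = b' + 1 + k := by omega
  rw [e1, e2] at key
  zify at key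
  push_cast
  nlinarith [sq_nonneg ((x : ℤ) - b' - (y - b' - k - 1))]

theorem bound {V : Type*} [Fintype V] (G : SimpleGraph V) (hbip : G.IsBipartite)
    (hiso : ∀ v, ∃ w, G.Adj v w) (hodd : Odd (totalDominationNumber G))
    (h3 : 3 ≤ totalDominationNumber G) :
    4 * (G.edgeSet.ncard : ℤ) ≤
      (((Fintype.card V : ℤ) - totalDominationNumber G) *
        ((Fintype.card V : ℤ) - totalDominationNumber G + 4)
          + 2 * totalDominationNumber G - 2) := by
  classical
  obtain ⟨C0⟩ := hbip
  let C : V → Bool := fun v => decide (C0 v = 0)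
  have hC : ∀ u v, G.Adj u v → C u ≠ C v := by
    intro u v h
    have := C0.valid h
    simp only [C, ne_eq]
    intro h'
    have h1 : (C0 u = 0) ↔ (C0 v = 0) := by simpa using h'
    apply this
    by_cases h2 : C0 u = 0
    · rw [h2, h1.1 h2]
    · have h3 : ¬ C0 v = 0 := fun h => h2 (h1.2 h)
      omega
  have hne : {k | ∃ S : Finset V, IsTotalDominating G S ∧ S.card = k}.Nonempty :=
    ⟨_, univ, fun v => by obtain ⟨w, hw⟩ := hiso v; exact ⟨w, mem_univ _, hw⟩, rfl⟩
  obtain ⟨D, hD, hDc⟩ := Nat.sInf_mem hne
  change D.card = totalDominationNumber G at hDc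
  have hmin : ∀ S, IsTotalDominating G S → D.card ≤ S.card := by
    intro S hS
    rw [hDc]
    exact Nat.sInf_le ⟨S, hS, rfl⟩
  set γ := totalDominationNumber G with hγ
  set a := (D.filter (fun v => C v = true)).card with ha
  set b := (D.filter (fun v => C v = false)).card with hb
  have hab : a + b = γ := by
    rw [← hDc, ha, hb]
    have := Finset.card_filter_add_card_filter_not (s := D) (fun v => C v = true)
    have h2 : D.filter (fun v => ¬ C v = true) = D.filter (fun v => C v = false) := by
      ext v; simp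
    rw [h2] at this
    exact this
  have hVne : Nonempty V := by
    by_contra hcon
    rw [not_nonempty_iff] at hcon
    have : D = ∅ := Finset.eq_empty_of_isEmpty D
    rw [this] at hDc
    simp at hDc
    omega
  obtain ⟨v0⟩ := hVne
  obtain ⟨w0, hw0⟩ := hiso v0
  have hpos : ∀ t : Bool, ∃ v, C v = t := by
    intro t
    by_cases h : C v0 = t
    · exact ⟨v0, h⟩
    · refine ⟨w0, ?_⟩
      have := hC _ _ hw0
      cases hv : C v0 <;> cases hw : C w0 <;> cases t <;> simp_all
  have hnb : ∀ v w, G.Adj v w → C w = !(C v) := by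
    intro v w h
    have := hC v w h
    cases hv : C v <;> cases hw : C w <;> simp_all
  have ha1 : 1 ≤ a := by
    obtain ⟨v, hv⟩ := hpos false
    obtain ⟨w, hw, hvw⟩ := hD v
    rw [ha, Nat.one_le_iff_ne_zero, ← Nat.pos_iff_ne_zero, Finset.card_pos]
    exact ⟨w, mem_filter.2 ⟨hw, by rw [hnb v w hvw, hv]; rfl⟩⟩
  have hb1 : 1 ≤ b := by
    obtain ⟨v, hv⟩ := hpos true
    obtain ⟨w, hw, hvw⟩ := hD v
    rw [hb, Nat.one_le_iff_ne_zero, ← Nat.pos_iff_ne_zero, Finset.card_pos]
    exact ⟨w, mem_filter.2 ⟨hw, by rw [hnb v w hvw, hv]; rfl⟩⟩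
  have hxy : Fintype.card {v // C v = true} + Fintype.card {v // C v = false}
      = Fintype.card V := by
    rw [Fintype.card_subtype, Fintype.card_subtype]
    have := Finset.card_filter_add_card_filter_not (s := (univ : Finset V)) (fun v => C v = true)
    have h2 : univ.filter (fun v => ¬ C v = true) = univ.filter (fun v => C v = false) := by
      ext v; simp
    rw [h2] at this
    exact this
  have hm : G.edgeSet.ncard = G.edgeFinset.card := by
    rw [← SimpleGraph.coe_edgeFinset, Set.ncard_coe_finset]
  rcases Nat.lt_trichotomy a b with hlt | heq | hgt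
  · -- swap colours
    let C' : V → Bool := fun v => !(C v)
    have hC' : ∀ u v, G.Adj u v → C' u ≠ C' v := by
      intro u v h h'
      exact hC u v h (by simpa [C'] using h')
    have e1 : (D.filter (fun v => C' v = true)) = (D.filter (fun v => C v = false)) := by
      ext v; simp [C']
    have e2 : (D.filter (fun v => C' v = false)) = (D.filter (fun v => C v = true)) := by
      ext v; simp [C']
    have key := oneSided G C' hC' hiso D hD hmin b a (by rw [e1]) (by rw [e2]) hlt ha1
    have e3 : Fintype.card {v // C' v = true} = Fintype.card {v // C v = false} := by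
      rw [Fintype.card_subtype, Fintype.card_subtype]; congr 1; ext v; simp [C']
    have e4 : Fintype.card {v // C' v = false} = Fintype.card {v // C v = true} := by
      rw [Fintype.card_subtype, Fintype.card_subtype]; congr 1; ext v; simp [C']
    rw [e3, e4] at key
    rw [hm]
    generalize G.edgeFinset.card = m at key ⊢
    generalize Fintype.card {v // C v = true} = x at key hxy
    generalize Fintype.card {v // C v = false} = y at key hxy
    rw [← hxy, ← hab]
    rw [add_comm x y, add_comm a b]
    exact arith y x b a m hlt ha1 (by linarith [key])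
  · exfalso
    rw [heq] at hab
    obtain ⟨k, hk⟩ := hodd
    omega
  · have key := oneSided G C hC hiso D hD hmin a b rfl rfl hgt hb1
    rw [hm]
    generalize G.edgeFinset.card = m at key ⊢
    generalize Fintype.card {v // C v = true} = x at key hxy
    generalize Fintype.card {v // C v = false} = y at key hxy
    rw [← hxy, ← hab]
    exact arith x y a b m hgt hb1 key

end Pool.Agent.H1.TD
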